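import Pool.Agent.H221.TW.StmG

/-!
Project TW, planar lemma, Lean side (helper265): the inequalities of the types F, G (label and
convexity) and C, K (label and centrality) for a chain in generic position.
-/

set_option autoImplicit false

namespace Pool.Agent.H265.TW

open Pool.Agent.H332.HT (V2 V3 det)
open Pool.Agent.H221.TW

theorem pl (f : V2 →ₗ[ℝ] ℝ) (x y z : V2) : det x z * f y = det y z * f x + det x y * f z := by
  have h : det x z • y = det y z • x + det x y • z := by
    ext <;> simp [det] <;> ring
  have h2 := congrArg f h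
  simpa using h2

theorem det_swap (x y : V2) : det y x = -det x y := by
  simp only [det]
  ring

/-- a support functional at a point of the frontier -/
theorem supp {Q : Set V2} (hQ : Convex ℝ Q) (hc : IsCompact Q) (h0 : (0 : V2) ∈ interior Q)
    {C : ℝ} (hC : 0 < C) (hcen : ∀ x ∈ Q, -((1 / C) • x) ∈ Q) {a : V2} (ha : a ∈ frontier Q) :
    ∃ f : V2 →ₗ[ℝ] ℝ, f a = 1 ∧ (∀ x ∈ Q, f x ≤ 1) ∧ ∀ x ∈ Q, -C ≤ f x := by
  have hna : a ∉ interior Q := ha.2
  obtain ⟨g, hg⟩ := geometric_hahn_banach_open_point hQ.interior isOpen_interior hna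
  have hga : 0 < g a := by
    have := hg 0 h0
    simpa using this
  have hgQ : ∀ z ∈ Q, g z ≤ g a := by
    intro z hz
    have h1 : z ∈ closure (interior Q) := by
      rw [hQ.closure_interior_eq_closure_of_nonempty_interior ⟨0, h0⟩]
      exact subset_closure hz
    have h2 : closure (interior Q) ⊆ {z | g z ≤ g a} :=
      closure_minimal (fun w hw => (hg w hw).le) (isClosed_le g.continuous continuous_const)
    exact h2 h1
  have h1 : ∀ x ∈ Q, (g a)⁻¹ * g x ≤ 1 := by
    intro x hx
    rw [inv_mul_le_iff₀ hga, mul_one]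
    exact hgQ x hx
  refine ⟨(g a)⁻¹ • (g : V2 →ₗ[ℝ] ℝ), ?_, h1, fun x hx => ?_⟩
  · change (g a)⁻¹ * g a = 1
    exact inv_mul_cancel₀ hga.ne'
  · change -C ≤ (g a)⁻¹ * g x
    have h2 := h1 _ (hcen x hx)
    have h3 : g (-((1 / C) • x)) = -(1 / C * g x) := by
      simp [map_neg, map_smul]
    rw [h3] at h2
    have h4 : (g a)⁻¹ * -(1 / C * g x) * C = -((g a)⁻¹ * g x) := by
      field_simp
    nlinarith

theorem fact1 {x y z v : V2} (hc : det x z ≤ det x y + det y z) (h1 : 0 < det x y)
    (h3 : 0 < det x z) (hx : 0 ≤ det x v) (h : det x v < det z v) : det x v < det y v := by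
  by_contra hcon
  push Not at hcon
  have e : det y v * det x z = det y z * det x v + det x y * det z v := by
    simp only [det]
    ring
  have h4 : det y v * det x z ≤ det x v * det x z := mul_le_mul_of_nonneg_right hcon h3.le
  have h5 : det x v * det x z ≤ det x v * (det x y + det y z) := mul_le_mul_of_nonneg_left hc hx
  have h6 : det x y * det x v < det x y * det z v := mul_lt_mul_of_pos_left h h1
  nlinarith

theorem fact2 {x y z v : V2} (hc : det x z ≤ det x y + det y z) (h1 : 0 < det x y)
    (h2 : 0 < det y z) (hy : 0 ≤ det y v) (h : det y v < det z v) : det x v < det y v := by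
  by_contra hcon
  push Not at hcon
  have e : det y v * det x z = det y z * det x v + det x y * det z v := by
    simp only [det]
    ring
  have h4 : det y z * det y v ≤ det y z * det x v := mul_le_mul_of_nonneg_left hcon h2.le
  have h5 : det y v * det x z ≤ det y v * (det x y + det y z) := mul_le_mul_of_nonneg_left hc hy
  have h6 : det x y * det y v < det x y * det z v := mul_lt_mul_of_pos_left h h1
  nlinarith

/-- mirror images -/
theorem fact1' {x y z v : V2} (hc : det z x ≤ det z y + det y x) (h1 : 0 < det y x)
    (h3 : 0 < det z x) (hx : 0 ≤ det v x) (h : det v x < det v z) : det v x < det v y := by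
  by_contra hcon
  push Not at hcon
  have e : det v y * det z x = det z y * det v x + det y x * det v z := by
    simp only [det]
    ring
  have h4 : det v y * det z x ≤ det v x * det z x := mul_le_mul_of_nonneg_right hcon h3.le
  have h5 : det v x * det z x ≤ det v x * (det z y + det y x) := mul_le_mul_of_nonneg_left hc hx
  have h6 : det y x * det v x < det y x * det v z := mul_lt_mul_of_pos_left h h1
  nlinarith

theorem fact2' {x y z v : V2} (hc : det z x ≤ det z y + det y x) (h1 : 0 < det y x)
    (h2 : 0 < det z y) (hy : 0 ≤ det v y) (h : det v y < det v z) : det v x < det v y := by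
  by_contra hcon
  push Not at hcon
  have e : det v y * det z x = det z y * det v x + det y x * det v z := by
    simp only [det]
    ring
  have h4 : det z y * det v y ≤ det z y * det v x := mul_le_mul_of_nonneg_left hcon h2.le
  have h5 : det v y * det z x ≤ det v y * (det z y + det y x) := mul_le_mul_of_nonneg_left hc hy
  have h6 : det y x * det v y < det y x * det v z := mul_lt_mul_of_pos_left h h1
  nlinarith

section chain

variable {Q : Set V2} {th : ℕ → ℝ} {p : ℕ → V2}

/-- the data of the planar lemma -/
structure Dat (Q : Set V2) (th : ℕ → ℝ) (p : ℕ → V2) : Prop where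
  cvx : Convex ℝ Q
  cpt : IsCompact Q
  int : (0 : V2) ∈ interior Q
  cen : ∀ x ∈ Q, -((1 / (31 / 10 : ℝ)) • x) ∈ Q
  ch : ChainG Q th p

theorem Dat.mem (h : Dat Q th p) (i : ℕ) : p i ∈ Q := by
  have := (h.ch.fr i).1
  rwa [h.cpt.isClosed.closure_eq] at this

theorem Dat.pos (h : Dat Q th p) {i j : ℕ} (hij : i < j) (hj : th j < th i + Real.pi) :
    0 < det (p i) (p j) := by
  obtain ⟨r, hr, h1⟩ := h.ch.pol i
  obtain ⟨s, hs, h2⟩ := h.ch.pol j
  have h3 := h.ch.mono hij
  have e : det (p i) (p j) = r * s * Real.sin (th j - th i) := by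
    rw [h1, h2, Real.sin_sub]
    simp only [det]
    ring
  rw [e]
  exact mul_pos (mul_pos hr hs) (Real.sin_pos_of_pos_of_lt_pi (by linarith) (by linarith))

/-- convexity: the triangle inequality for the determinant -/
theorem Dat.tri (h : Dat Q th p) {i j k : ℕ} (hij : i < j) (hjk : j < k)
    (hk : th k < th i + Real.pi) :
    det (p i) (p k) ≤ det (p i) (p j) + det (p j) (p k) := by
  obtain ⟨f, hf1, hf2, -⟩ := supp h.cvx h.cpt h.int (by norm_num : (0 : ℝ) < 31 / 10) h.cen
    (h.ch.fr j)
  have h1 := h.pos hij (by linarith [h.ch.mono hjk])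
  have h2 := h.pos hjk (by linarith [h.ch.mono hij])
  have e := pl f (p i) (p j) (p k)
  rw [hf1, mul_one] at e
  have h3 := mul_le_mul_of_nonneg_left (hf2 _ (h.mem i)) h2.le
  have h4 := mul_le_mul_of_nonneg_left (hf2 _ (h.mem k)) h1.le
  linarith

/-- type F -/
theorem Dat.F (h : Dat Q th p) {a b i j e : ℕ} (hai : a ≤ i) (hij : i < j) (hab : a < b)
    (hbj : b ≤ j) (hje : j + 1 ≤ e) (hpi : th e < th a + Real.pi)
    (hR : det (p i) (p (j + 1)) < det (p j) (p (j + 1))) :
    det (p a) (p e) < det (p b) (p e) := by
  have hm := h.ch.mono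
  have tj : th (j + 1) ≤ th e := hm.monotone hje
  have ta : th a ≤ th i := hm.monotone hai
  have tj1 : th j < th (j + 1) := hm (Nat.lt_succ_self j)
  have tij : th i < th j := hm hij
  have tb : th b ≤ th j := hm.monotone hbj
  have tab : th a < th b := hm hab
  have s1 : det (p a) (p (j + 1)) < det (p j) (p (j + 1)) := by
    rcases hai.eq_or_lt with rfl | hai'
    · exact hR
    · have := fact2 (h.tri hai' hij (by linarith)) (h.pos hai' (by linarith))
        (h.pos hij (by linarith)) (h.pos (by omega : i < j + 1) (by linarith)).le hR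
      linarith
  have s2 : det (p a) (p (j + 1)) < det (p b) (p (j + 1)) := by
    rcases hbj.eq_or_lt with rfl | hbj'
    · exact s1
    · exact fact1 (h.tri hab hbj' (by linarith)) (h.pos hab (by linarith))
        (h.pos (by omega : a < j) (by linarith)) (h.pos (by omega : a < j + 1) (by linarith)).le s1
  rcases hje.eq_or_lt with rfl | hje'
  · exact s2
  · have e1 : (det (p b) (p e) - det (p a) (p e)) * det (p a) (p (j + 1)) =
        (det (p b) (p (j + 1)) - det (p a) (p (j + 1))) * det (p a) (p e) +
          det (p a) (p b) * det (p (j + 1)) (p e) := by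
      simp only [det]
      ring
    have q1 := h.pos (by omega : a < j + 1) (by linarith : th (j + 1) < th a + Real.pi)
    have q2 := h.pos (by omega : a < e) hpi
    have q3 := h.pos hab (by linarith)
    have q4 := h.pos hje' (by linarith)
    have q5 : 0 < (det (p b) (p e) - det (p a) (p e)) * det (p a) (p (j + 1)) := by
      rw [e1]
      exact add_pos (mul_pos (by linarith) q2) (mul_pos q3 q4)
    have q6 := pos_of_mul_pos_left q5 q1.le
    linarith

/-- type G, the mirror image of F -/
theorem Dat.G (h : Dat Q th p) {a b c i j : ℕ} (hci : c ≤ i) (hij : i < j) (hab : a < b)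
    (hia : i + 1 ≤ a) (hjb : j + 1 ≤ b) (hpi : th b < th c + Real.pi)
    (hL : det (p i) (p (j + 1)) < det (p i) (p (i + 1))) :
    det (p c) (p b) < det (p c) (p a) := by
  have hm := h.ch.mono
  have tc : th c ≤ th i := hm.monotone hci
  have tia : th (i + 1) ≤ th a := hm.monotone hia
  have tjb : th (j + 1) ≤ th b := hm.monotone hjb
  have tii : th i < th (i + 1) := hm (Nat.lt_succ_self i)
  have tij : th (i + 1) < th (j + 1) := hm (by omega)
  have tab : th a < th b := hm hab
  have s1 : det (p i) (p b) < det (p i) (p (i + 1)) := by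
    rcases hjb.eq_or_lt with rfl | hjb'
    · exact hL
    · have := fact2' (h.tri (by omega : i + 1 < j + 1) hjb' (by linarith))
        (h.pos hjb' (by linarith)) (h.pos (by omega : i + 1 < j + 1) (by linarith))
        (h.pos (by omega : i < j + 1) (by linarith)).le hL
      linarith
  have s2 : det (p i) (p b) < det (p i) (p a) := by
    rcases hia.eq_or_lt with rfl | hia'
    · exact s1
    · exact fact1' (h.tri hia' hab (by linarith)) (h.pos hab (by linarith))
        (h.pos (by omega : i + 1 < b) (by linarith)) (h.pos (by omega : i < b) (by linarith)).le s1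
  rcases hci.eq_or_lt with rfl | hci'
  · exact s2
  · have e1 : (det (p c) (p a) - det (p c) (p b)) * det (p i) (p b) =
        (det (p i) (p a) - det (p i) (p b)) * det (p c) (p b) +
          det (p a) (p b) * det (p c) (p i) := by
      simp only [det]
      ring
    have q1 := h.pos (by omega : i < b) (by linarith : th b < th i + Real.pi)
    have q2 := h.pos (by omega : c < b) hpi
    have q3 := h.pos hab (by linarith)
    have q4 := h.pos hci' (by linarith)
    have q5 : 0 < (det (p c) (p a) - det (p c) (p b)) * det (p i) (p b) := by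
      rw [e1]
      exact add_pos (mul_pos (by linarith) q2) (mul_pos q3 q4)
    have q6 := pos_of_mul_pos_left q5 q1.le
    linarith

/-- type C -/
theorem Dat.C (h : Dat Q th p) {a i j e g : ℕ} (hai : a ≤ i) (hij : i < j)
    (hje : j + 1 ≤ e) (heg : e < g) (hpi : th g < th a + Real.pi)
    (hR : det (p i) (p (j + 1)) < det (p j) (p (j + 1))) :
    det (p e) (p g) < 31 / 10 * det (p a) (p e) := by
  have hm := h.ch.mono
  have te : th e < th g := hm heg
  have hF := h.F hai hij (by omega : a < j) le_rfl hje (by linarith) hR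
  obtain ⟨f, hf1, hf2, hf3⟩ := supp h.cvx h.cpt h.int (by norm_num : (0 : ℝ) < 31 / 10) h.cen
    (h.ch.fr a)
  have q1 := h.pos (by omega : a < e) (by linarith)
  have q2 := h.pos (by omega : a < j) (by linarith [hm (by omega : j < e)])
  have q3 := h.pos (by omega : a < g) hpi
  have e1 := pl f (p j) (p a) (p e)
  rw [hf1, mul_one, det_swap (p a) (p j)] at e1
  have h1 := mul_le_mul_of_nonneg_left (hf2 _ (h.mem j)) q1.le
  have h2 : det (p a) (p j) * f (p e) < 0 := by linarith
  have h3 : f (p e) < 0 := by
    by_contra hcon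
    push Not at hcon
    have := mul_nonneg q2.le hcon
    linarith
  have e2 := pl f (p e) (p a) (p g)
  rw [hf1, mul_one, det_swap (p a) (p e)] at e2
  have h4 := mul_neg_of_pos_of_neg q3 h3
  have h5 := mul_le_mul_of_nonneg_left (hf3 _ (h.mem g)) q1.le
  linarith

/-- type K, the mirror image of C -/
theorem Dat.K (h : Dat Q th p) {b c i j g : ℕ} (hci : c ≤ i) (hij : i < j)
    (hjb : j + 1 ≤ b) (hgc : g < c) (hpi : th b < th g + Real.pi)
    (hL : det (p i) (p (j + 1)) < det (p i) (p (i + 1))) :
    det (p g) (p c) < 31 / 10 * det (p c) (p b) := by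
  have hm := h.ch.mono
  have te : th g < th c := hm hgc
  have hG := h.G hci hij (by omega : i + 1 < b) le_rfl hjb (by linarith) hL
  obtain ⟨f, hf1, hf2, hf3⟩ := supp h.cvx h.cpt h.int (by norm_num : (0 : ℝ) < 31 / 10) h.cen
    (h.ch.fr b)
  have q1 := h.pos (by omega : c < b) (by linarith)
  have q2 := h.pos (by omega : i + 1 < b) (by linarith [hm (by omega : c < i + 1)])
  have q3 := h.pos (by omega : g < b) hpi
  have e1 := pl f (p c) (p b) (p (i + 1))
  rw [hf1, mul_one, det_swap (p (i + 1)) (p b)] at e1
  have h1 := mul_le_mul_of_nonneg_left (hf2 _ (h.mem (i + 1))) q1.le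
  have h2 : det (p (i + 1)) (p b) * f (p c) < 0 := by linarith
  have h3 : f (p c) < 0 := by
    by_contra hcon
    push Not at hcon
    have := mul_nonneg q2.le hcon
    linarith
  have e2 := pl f (p g) (p b) (p c)
  rw [hf1, mul_one, det_swap (p c) (p b)] at e2
  have h4 := mul_neg_of_pos_of_neg q3 h3
  have h5 := mul_le_mul_of_nonneg_left (hf3 _ (h.mem g)) q1.le
  linarith

end chain

end Pool.Agent.H265.TW
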