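import Pool.Agent.H221.TW.StmG

/-!
Project TW (helper265): the dispatcher.  The sign word of a chain, the shift and the reflection of
a chain, and the reduction of the planar lemma to one word of every class under rotation and
reflection.
-/

set_option autoImplicit false

namespace Pool.Agent.H265.TW

open Pool.Agent.H221.TW (ChainG S_planarG)
open Pool.Agent.H332.HT (V2 V3 det)

/-- the word of a chain: `w i` is the number of the points following `i` within `π` -/
def Word (th : ℕ → ℝ) (w : List ℕ) : Prop :=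
  ∀ i < 10, ∀ k, 1 ≤ k → k < 10 → (th (i + k) < th i + Real.pi ↔ k ≤ w.getD i 0)

/-- no chain has the word `w` -/
def NoChain (w : List ℕ) : Prop :=
  ∀ Q : Set V2, Convex ℝ Q → IsCompact Q → (0 : V2) ∈ interior Q →
    (∀ x ∈ Q, -((1 / (31 / 10 : ℝ)) • x) ∈ Q) → ∀ (th : ℕ → ℝ) (p : ℕ → V2), ChainG Q th p →
    Word th w → False

/-- the word of the chain shifted by `k` -/
def sh (k : ℕ) (w : List ℕ) : List ℕ := (List.range 10).map (fun i => w.getD ((i + k) % 10) 0)

/-- the word of the reflected chain -/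
def rf (w : List ℕ) : List ℕ := (List.range 10).map (fun i => 9 - w.getD ((10 - i) % 10) 0)

theorem getD_map_range (f : ℕ → ℕ) (i : ℕ) (hi : i < 10) :
    ((List.range 10).map f).getD i 0 = f i := by
  simp [List.getD_eq_getElem?_getD, hi]

theorem per_mul {th : ℕ → ℝ} (h : ∀ i, th (i + 10) = th i + 2 * Real.pi) (i m : ℕ) :
    th (i + 10 * m) = th i + 2 * Real.pi * m := by
  induction m with
  | zero => simp
  | succ m ih =>
    have : i + 10 * (m + 1) = (i + 10 * m) + 10 := by ring
    rw [this, h, ih]; push_cast; ring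

theorem pper_mul {p : ℕ → V2} (h : ∀ i, p (i + 10) = p i) (i m : ℕ) :
    p (i + 10 * m) = p i := by
  induction m with
  | zero => simp
  | succ m ih =>
    have : i + 10 * (m + 1) = (i + 10 * m) + 10 := by ring
    rw [this, h, ih]

/-! ### shift -/

theorem shift {Q : Set V2} {th : ℕ → ℝ} {p : ℕ → V2} (H : ChainG Q th p) (s : ℕ) :
    ChainG Q (fun i => th (i + s)) (fun i => p (i + s)) where
  mono := fun a b hab => H.mono (by omega)
  per := fun i => by
    have := H.per (i + s)
    rw [show i + 10 + s = i + s + 10 by ring]; exact this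
  pper := fun i => by
    have := H.pper (i + s)
    rw [show i + 10 + s = i + s + 10 by ring]; exact this
  pol := fun i => H.pol (i + s)
  fr := fun i => H.fr (i + s)
  gen := fun i j h1 h2 => H.gen (i + s) (j + s) (by omega) (by omega)
  pair := fun i j h1 h2 h3 => by
    have := H.pair (i + s) (j + s) (by omega) (by omega)
    rw [show i + s + 1 = i + 1 + s by ring, show j + s + 1 = j + 1 + s by ring] at this
    exact this h3
  ch3 := fun i h1 h2 => by
    have := H.ch3 (i + s)
    rw [show i + s + 1 = i + 1 + s by ring, show i + s + 2 = i + 2 + s by ring,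
      show i + s + 3 = i + 3 + s by ring, show i + s + 4 = i + 4 + s by ring,
      show i + s + 5 = i + 5 + s by ring] at this
    exact this h1 h2

theorem word_shift {Q : Set V2} {th : ℕ → ℝ} {p : ℕ → V2} (H : ChainG Q th p) (s : ℕ)
    {w : List ℕ} (hw : Word th w) : Word (fun i => th (i + s)) (sh s w) := by
  intro i hi k h1 h2
  rw [sh, getD_map_range _ _ hi, ← hw ((i + s) % 10) (Nat.mod_lt _ (by norm_num)) k h1 h2]
  have e1 : i + k + s = ((i + s) % 10 + k) + 10 * ((i + s) / 10) := by
    have := Nat.mod_add_div (i + s) 10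
    omega
  have e2 : i + s = (i + s) % 10 + 10 * ((i + s) / 10) := (Nat.mod_add_div (i + s) 10).symm
  show th (i + k + s) < th (i + s) + Real.pi ↔ _
  rw [e1, per_mul H.per]
  conv_lhs => rw [e2]
  rw [per_mul H.per]
  have e3 : ((i + s) % 10 + 10 * ((i + s) / 10)) / 10 = (i + s) / 10 := by omega
  have e4 : ((i + s) % 10 + 10 * ((i + s) / 10)) % 10 = (i + s) % 10 := by omega
  constructor <;> intro h
  · simp only [e3, e4] at h; linarith
  · simp only [e3, e4]; linarith

theorem no_of_shift {w : List ℕ} (s : ℕ) (h : NoChain (sh s w)) : NoChain w :=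
  fun Q h1 h2 h3 h4 _ _ H hw => h Q h1 h2 h3 h4 _ _ (shift H s) (word_shift H s hw)

/-! ### reflection -/

/-- the reflection of the plane -/
def sg (x : V2) : V2 := (x.1, -x.2)

theorem det_sg (x y : V2) : det (sg x) (sg y) = det y x := by
  simp only [det, sg]; ring

def sgh : V2 ≃ₜ V2 := (Homeomorph.refl ℝ).prodCongr (Homeomorph.neg ℝ)

theorem sgh_apply (x : V2) : sgh x = sg x := rfl

/-- the angles of the reflected chain -/
noncomputable def rth (th : ℕ → ℝ) (i : ℕ) : ℝ := 2 * Real.pi * (i + 1 : ℕ) - th (9 * i + 10)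

/-- the points of the reflected chain -/
def rp (p : ℕ → V2) (i : ℕ) : V2 := sg (p (9 * i + 10))

theorem rth_eq {th : ℕ → ℝ} (h : ∀ i, th (i + 10) = th i + 2 * Real.pi) (i n m : ℕ)
    (hm : n + i = 10 * m) : rth th i = 2 * Real.pi * m - th n := by
  unfold rth
  rcases le_total m (i + 1) with hle | hle
  · obtain ⟨k, hk⟩ := Nat.exists_eq_add_of_le hle
    have : 9 * i + 10 = n + 10 * k := by omega
    rw [this, per_mul h, hk]; push_cast; ring
  · obtain ⟨k, hk⟩ := Nat.exists_eq_add_of_le hle
    have : n = (9 * i + 10) + 10 * k := by omega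
    rw [this, per_mul h, hk]; push_cast; ring

theorem rp_eq {p : ℕ → V2} (h : ∀ i, p (i + 10) = p i) (i n m : ℕ)
    (hm : n + i = 10 * m) : rp p i = sg (p n) := by
  unfold rp
  rcases le_total m (i + 1) with hle | hle
  · obtain ⟨k, hk⟩ := Nat.exists_eq_add_of_le hle
    have : 9 * i + 10 = n + 10 * k := by omega
    rw [this, pper_mul h]
  · obtain ⟨k, hk⟩ := Nat.exists_eq_add_of_le hle
    have : n = (9 * i + 10) + 10 * k := by omega
    rw [this, pper_mul h]

theorem refl {Q : Set V2} {th : ℕ → ℝ} {p : ℕ → V2} (H : ChainG Q th p) :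
    ChainG (sgh ⁻¹' Q) (rth th) (rp p) where
  mono := by
    refine strictMono_nat_of_lt_succ (fun i => ?_)
    rw [rth_eq H.per i (9 * i + 10) (i + 1) (by ring),
      rth_eq H.per (i + 1) (9 * i + 9) (i + 1) (by ring)]
    have := H.mono (show 9 * i + 9 < 9 * i + 10 by omega)
    linarith
  per := fun i => by
    rw [rth_eq H.per i (9 * i + 10) (i + 1) (by ring),
      rth_eq H.per (i + 10) (9 * i + 10) (i + 2) (by ring)]
    push_cast; ring
  pper := fun i => by
    rw [rp_eq H.pper i (9 * i + 10) (i + 1) (by ring),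
      rp_eq H.pper (i + 10) (9 * i + 10) (i + 2) (by ring)]
  pol := fun i => by
    obtain ⟨r, hr, e⟩ := H.pol (9 * i + 10)
    refine ⟨r, hr, ?_⟩
    rw [rp_eq H.pper i (9 * i + 10) (i + 1) (by ring),
      rth_eq H.per i (9 * i + 10) (i + 1) (by ring), e, sg]
    have e1 : 2 * Real.pi * ((i + 1 : ℕ) : ℝ) - th (9 * i + 10) =
      ((i + 1 : ℕ) : ℝ) * (2 * Real.pi) - th (9 * i + 10) := by ring
    rw [e1, Real.cos_nat_mul_two_pi_sub, Real.sin_nat_mul_two_pi_sub]
    simp
  fr := fun i => by
    rw [← sgh.preimage_frontier]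
    show sgh (rp p i) ∈ frontier Q
    have : sgh (rp p i) = p (9 * i + 10) := by
      rw [sgh_apply, rp, sg, sg]; simp
    rw [this]; exact H.fr _
  gen := fun i j h1 h2 => by
    obtain ⟨d, hd⟩ := Nat.exists_eq_add_of_lt h1
    have e1 : 9 * j + 10 + j = 10 * (j + 1) := by ring
    have e2 : (9 * j + 10 + (d + 1)) + i = 10 * (j + 1) := by omega
    rw [rth_eq H.per j _ _ e1, rth_eq H.per i _ _ e2]
    have := H.gen (9 * j + 10) (9 * j + 10 + (d + 1)) (by omega) (by omega)
    intro h
    apply this
    linarith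
  pair := fun i j h1 h2 => by
    obtain ⟨d, hd⟩ := Nat.exists_eq_add_of_le h1
    set n := 9 * (j + 1) + 10 with hn
    have e0 : n + (j + 1) = 10 * (j + 2) := by omega
    have e1 : (n + 1) + j = 10 * (j + 2) := by omega
    have e2 : (n + (d + 2)) + (i + 1) = 10 * (j + 2) := by omega
    have e3 : (n + (d + 2) + 1) + i = 10 * (j + 2) := by omega
    rw [rth_eq H.per _ _ _ e0, rth_eq H.per _ _ _ e3, rp_eq H.pper _ _ _ e0,
      rp_eq H.pper _ _ _ e1, rp_eq H.pper _ _ _ e2, rp_eq H.pper _ _ _ e3]
    simp only [det_sg]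
    intro h3
    have := H.pair n (n + (d + 2)) (by omega) (by omega) (by linarith)
    rw [max_comm]
    exact this
  ch3 := fun i => by
    set n := 9 * (i + 5) + 10 with hn
    have e5 : n + (i + 5) = 10 * (i + 6) := by omega
    have e4 : (n + 1) + (i + 4) = 10 * (i + 6) := by omega
    have e3 : (n + 2) + (i + 3) = 10 * (i + 6) := by omega
    have e2 : (n + 3) + (i + 2) = 10 * (i + 6) := by omega
    have e1 : (n + 4) + (i + 1) = 10 * (i + 6) := by omega
    have e0 : (n + 5) + i = 10 * (i + 6) := by omega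
    rw [rth_eq H.per _ _ _ e0, rth_eq H.per _ _ _ e2, rth_eq H.per _ _ _ e3,
      rth_eq H.per _ _ _ e5,
      rp_eq H.pper _ _ _ e0, rp_eq H.pper _ _ _ e1, rp_eq H.pper _ _ _ e2,
      rp_eq H.pper _ _ _ e3, rp_eq H.pper _ _ _ e4, rp_eq H.pper _ _ _ e5]
    simp only [det_sg]
    intro h1 h2
    rcases H.ch3 n (by linarith) (by linarith) with h | h | h | h
    · exact Or.inr (Or.inl h)
    · exact Or.inl h
    · refine Or.inr (Or.inr (Or.inl ?_)); linarith
    · refine Or.inr (Or.inr (Or.inr ?_)); nlinarith [h]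

theorem word_refl {Q : Set V2} {th : ℕ → ℝ} {p : ℕ → V2} (H : ChainG Q th p)
    {w : List ℕ} (hw : Word th w) : Word (rth th) (rf w) := by
  intro i hi k h1 h2
  rw [rf, getD_map_range _ _ hi]
  -- index `a` with `a + (i + k) = 20`
  obtain ⟨a, ha⟩ : ∃ a, a + (i + k) = 10 * 2 := ⟨20 - (i + k), by omega⟩
  have e1 : (a + k) + i = 10 * 2 := by omega
  rw [rth_eq H.per _ _ _ ha, rth_eq H.per _ _ _ e1]
  -- `a + k = 20 - i`
  have e2 : a + 10 = (a + k) + (10 - k) := by omega
  have e3 : a + k = (10 - i) % 10 + 10 * ((a + k) / 10) := by omega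
  have key := hw ((10 - i) % 10) (Nat.mod_lt _ (by norm_num)) (10 - k) (by omega) (by omega)
  have p1 : th (a + 10) = th a + 2 * Real.pi := H.per a
  have p2 : th (a + k) = th ((10 - i) % 10) + 2 * Real.pi * ((a + k) / 10 : ℕ) := by
    conv_lhs => rw [e3]
    rw [per_mul H.per]
  have p3 : th (a + 10) = th ((10 - i) % 10 + (10 - k)) + 2 * Real.pi * ((a + k) / 10 : ℕ) := by
    have : a + 10 = ((10 - i) % 10 + (10 - k)) + 10 * ((a + k) / 10) := by omega
    rw [this, per_mul H.per]
  have hg : th (a + 10) ≠ th (a + k) + Real.pi := H.gen _ _ (by omega) (by omega)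
  have q1 : th ((10 - i) % 10 + (10 - k)) < th ((10 - i) % 10) + Real.pi ↔
      ¬ (2 * Real.pi * (2 : ℕ) - th a < 2 * Real.pi * (2 : ℕ) - th (a + k) + Real.pi) := by
    constructor
    · intro h h'; linarith
    · intro h
      have : th (a + 10) ≤ th (a + k) + Real.pi := by linarith
      have := lt_of_le_of_ne this hg
      linarith
  rw [q1] at key
  have key' := not_iff_comm.mp (not_iff_comm.mp key)
  constructor
  · intro h
    by_contra hk
    exact (key.mpr (by omega)) h
  · intro h
    by_contra hk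
    have := key.mp hk
    omega

theorem no_of_refl {w : List ℕ} (h : NoChain (rf w)) : NoChain w := by
  intro Q h1 h2 h3 h4 th p H hw
  refine h (sgh ⁻¹' Q) ?_ ?_ ?_ ?_ _ _ (refl H) (word_refl H hw)
  · intro x hx y hy a b ha hb hab
    have := h1 (show sg x ∈ Q from hx) (show sg y ∈ Q from hy) ha hb hab
    show sg (a • x + b • y) ∈ Q
    convert this using 1
    simp only [sg, Prod.ext_iff, Prod.fst_add, Prod.snd_add, Prod.smul_fst, Prod.smul_snd,
      smul_eq_mul]
    exact ⟨trivial, by ring⟩
  · exact sgh.isCompact_preimage.mpr h2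
  · rw [← sgh.preimage_interior]
    show sg 0 ∈ interior Q
    have : sg 0 = 0 := by simp [sg]
    rw [this]; exact h3
  · intro x hx
    have := h4 (sg x) hx
    show sg (-((1 / (31 / 10 : ℝ)) • x)) ∈ Q
    convert this using 1
    simp [sg]

/-! ### the words -/

theorem exists_word {Q : Set V2} {th : ℕ → ℝ} {p : ℕ → V2} (H : ChainG Q th p) :
    ∃ f : ℕ → ℕ, (∀ i, f i < 10) ∧
      (∀ i k, 1 ≤ k → k < 10 → (th (i + k) < th i + Real.pi ↔ k ≤ f i)) ∧
      (∀ i j, i < j → j < 10 → (j - i ≤ f i ↔ ¬ (10 - (j - i) ≤ f j))) := by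
  classical
  have key : ∀ i k, 1 ≤ k → k < 10 → (th (i + k) < th i + Real.pi ↔
      k ≤ Nat.findGreatest (fun k => th (i + k) < th i + Real.pi) 9) := by
    intro i k h1 h2
    constructor
    · intro h
      exact Nat.le_findGreatest (by omega) h
    · intro h
      have h0 : (fun k => th (i + k) < th i + Real.pi) 0 := by
        simp [Real.pi_pos]
      have := Nat.findGreatest_spec (P := fun k => th (i + k) < th i + Real.pi)
        (Nat.zero_le 9) h0
      have h5 : th (i + k) ≤ th (i + Nat.findGreatest (fun k => th (i + k) < th i + Real.pi) 9) :=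
        H.mono.monotone (by omega)
      exact lt_of_le_of_lt h5 this
  refine ⟨fun i => Nat.findGreatest (fun k => th (i + k) < th i + Real.pi) 9, ?_, ?_, ?_⟩
  · intro i
    exact Nat.lt_succ_of_le (Nat.findGreatest_le 9)
  · exact key
  · intro i j h1 h2
    have k1 := key i (j - i) (by omega) (by omega)
    have k2 := key j (10 - (j - i)) (by omega) (by omega)
    show (j - i ≤ Nat.findGreatest (fun k => th (i + k) < th i + Real.pi) 9 ↔
      ¬ (10 - (j - i) ≤ Nat.findGreatest (fun k => th (j + k) < th j + Real.pi) 9))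
    rw [← k1, ← k2]
    have e1 : i + (j - i) = j := by omega
    have e2 : j + (10 - (j - i)) = i + 10 := by omega
    rw [e1, e2, H.per]
    have hg := H.gen i j h1 (by omega)
    constructor
    · intro h h'; linarith
    · intro h
      rcases lt_or_gt_of_ne hg with h3 | h3
      · exact h3
      · exact absurd (by linarith) h

/-- possible extension of a partial word `l` by the letter `d` -/
def okx (l : List ℕ) (d : ℕ) : Bool :=
  (List.range l.length).all (fun i =>
    decide (l.length - i ≤ l.getD i 0) != decide (10 - (l.length - i) ≤ d))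

/-- all partial words -/
def gen : ℕ → List (List ℕ)
  | 0 => [[]]
  | n + 1 => (gen n).flatMap (fun l => ((List.range 10).filter (fun d => okx l d)).map
      (fun d => l ++ [d]))

theorem mem_gen {f : ℕ → ℕ} (h1 : ∀ i, f i < 10)
    (h2 : ∀ i j, i < j → j < 10 → (j - i ≤ f i ↔ ¬ (10 - (j - i) ≤ f j))) (n : ℕ) (hn : n ≤ 10) :
    (List.range n).map f ∈ gen n := by
  induction n with
  | zero => simp [gen]
  | succ n ih =>
    have := ih (by omega)
    rw [gen, List.mem_flatMap]
    refine ⟨_, this, ?_⟩
    rw [List.mem_map]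
    refine ⟨f n, ?_, ?_⟩
    · rw [List.mem_filter]
      refine ⟨List.mem_range.mpr (h1 n), ?_⟩
      rw [okx, List.all_eq_true]
      intro i hi
      simp only [List.length_map, List.length_range, List.mem_range] at hi ⊢
      have e : ((List.range n).map f).getD i 0 = f i := by
        simp [List.getD_eq_getElem?_getD, hi]
      rw [e]
      have := h2 i n hi (by omega)
      by_cases h3 : n - i ≤ f i
      · have h4 := this.mp h3
        simp [h3, h4]
      · have h4 : 10 - (n - i) ≤ f n := by
          by_contra h5; exact h3 (this.mpr h5)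
        simp [h3, h4]
    · rw [List.range_succ, List.map_append]; rfl

/-- every word is, up to rotation and reflection, in `L` -/
def cover (L : List (List ℕ)) : Bool :=
  (gen 10).all (fun w => (List.range 10).any (fun k =>
    decide (sh k w ∈ L) || decide (sh k (rf w) ∈ L)))

/-- **the dispatcher** -/
theorem dispatch (L : List (List ℕ)) (hL : cover L = true) (h : ∀ w ∈ L, NoChain w) :
    S_planarG := by
  intro Q q1 q2 q3 q4 th p H
  obtain ⟨f, f1, f2, f3⟩ := exists_word H
  have hm := mem_gen f1 f3 10 le_rfl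
  have hw : Word th ((List.range 10).map f) := by
    intro i hi k k1 k2
    rw [getD_map_range _ _ hi]
    exact f2 i k k1 k2
  rw [cover, List.all_eq_true] at hL
  have h1 := hL _ hm
  rw [List.any_eq_true] at h1
  obtain ⟨k, -, hk⟩ := h1
  rw [Bool.or_eq_true, decide_eq_true_eq, decide_eq_true_eq] at hk
  rcases hk with hk | hk
  · exact no_of_shift k (h _ hk) Q q1 q2 q3 q4 th p H hw
  · exact no_of_refl (no_of_shift k (h _ hk)) Q q1 q2 q3 q4 th p H hw

end Pool.Agent.H265.TW
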